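import Pool.Agent.HP25.RD.E

/-!
# Primes `m³ + k` with restricted digits of `m`, for almost all `k`

Let `b ≥ 2` and let `D 0, ..., D (K - 1)` be sets of at least two digits in base `b`; `S b D K` is the set of the integers
`0 ≤ m < b ^ K` whose digit number `i` belongs to `D i` for all `i`. For `b = 3` and `D i = {0, 1}` it has only `2 ^ K`
elements, less than the power `0.22` of `N = 27 ^ K`.

For nonconstant integer polynomials `F₁, ..., F_r` without constant terms (for instance `r = 1`, `F₁ = x³`), and for all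
vectors `k` with `|k_j| ≤ T b ^ (d_j K)` outside a set of proportion `K ^ (-U)`:
* for an arbitrary subset of `S b D K` (more generally for arbitrary coefficients `|G m| ≤ 1`) the number of the `m` at
  which all the values `F_j(m) + k_j` are prime, with logarithmic weights, is the one predicted by the arguments for which
  the values have no prime factor up to `z = K ^ B`;
* for the whole set `S b D K` the Bateman-Horn asymptotic formula holds, with an explicit singular series;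
* there are many arguments with prime values, if there is no local obstruction.

Method: moments of Weyl sums over integers with random digits and a second moment over all shifts with arbitrary
coefficients (`Pool/Agent/HP25/PD`, `Pool/Agent/HP25/OS`), telescoping, distribution of the integers with random digits
in residue classes, fundamental lemma (`Pool/Agent/HP25/RD`, after the case of degree at most two in `Pool/Agent/TH872/Sq`).
-/

set_option autoImplicit false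

namespace Pool.Agent.Results.MP_4d57ea_nt.RestrictedDigits

open Finset
open scoped Polynomial

/-- the integers `0 ≤ m < b ^ K` whose digit number `i` in base `b` belongs to `D i` for all `i < K` -/
def S (b : ℕ) (D : ℕ → Finset ℕ) (K : ℕ) : Finset ℕ := (range (b ^ K)).filter (fun m : ℕ => ∀ i < K, m / b ^ i % b ∈ D i)

/-- the integer vectors `k` with `|k j| ≤ T b ^ (deg (F j) K)` for all `j` -/
def Box (b : ℕ) {r : ℕ} (F : Fin r → ℤ[X]) (T K : ℕ) : Set (Fin r → ℤ) :=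
  {k | ∀ j, |k j| ≤ ((T * b ^ ((F j).natDegree * K) : ℕ) : ℤ)}

/-- `log n` if `n` is a prime number, and `0` otherwise -/
noncomputable def lg (n : ℤ) : ℝ := if n.toNat.Prime then Real.log n else 0

/-- `n` is positive, and no prime number up to `z` divides `n` -/
def Rough (z : ℕ) (n : ℤ) : Prop := 1 ≤ n ∧ ∀ p : ℕ, p.Prime → p ≤ z → ¬ (p : ℤ) ∣ n

/-- the product of `(1 - 1/p)⁻¹` over the primes `p ≤ z` -/
noncomputable def W (z : ℕ) : ℝ := ∏ p ∈ (range (z + 1)).filter Nat.Prime, (1 - 1 / (p : ℝ))⁻¹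

/-- the number of the residues `a` modulo `p` such that `p` divides one of the values `F j (a) + k j` -/
def nu {r : ℕ} (F : Fin r → ℤ[X]) (k : Fin r → ℤ) (p : ℕ) : ℕ :=
  ((range p).filter (fun a : ℕ => ∃ j, (p : ℤ) ∣ (F j).eval (a : ℤ) + k j)).card

open Classical in
/-- the elements `m` of `S b D K` for which no value `F j (m) + k j` has a common prime factor with `f` -/
noncomputable def L (b f : ℕ) (D : ℕ → Finset ℕ) (K : ℕ) {r : ℕ} (F : Fin r → ℤ[X]) (k : Fin r → ℤ) : Finset ℕ :=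
  (S b D K).filter (fun m : ℕ => ∀ p : ℕ, p.Prime → p ∣ f → ∀ j, ¬ (p : ℤ) ∣ (F j).eval (m : ℤ) + k j)

/-- the singular series: the density of `L b f D K F k` at the primes dividing `f`, and the usual factors
`(1 - nu(p)/p) (1 - 1/p) ^ (-r)` at the other primes `p ≤ z` -/
noncomputable def Sing (b f : ℕ) (D : ℕ → Finset ℕ) (K : ℕ) {r : ℕ} (F : Fin r → ℤ[X]) (k : Fin r → ℤ) (z : ℕ) : ℝ :=
  W z ^ r * (((L b f D K F k).card : ℝ) / (S b D K).card) *
    ∏ p ∈ (range (z + 1)).filter (fun p => p.Prime ∧ ¬ p ∣ f), (1 - (nu F k p : ℝ) / p)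

open Pool.Agent.H373R2.T7 (pz mem_pz Vz Vz_pos lamzI lamz)
open Pool.Agent.TH872.Sq (SD th fx wD dig_wD P_wD P_sum)
open Pool.Agent.HP25 (RD.nuF)

lemma range_pz (z : ℕ) : (range (z + 1)).filter Nat.Prime = pz z := by
  ext p
  rw [mem_pz, mem_filter, mem_range]
  constructor
  · rintro ⟨h1, h2⟩; exact ⟨by omega, h2⟩
  · rintro ⟨h1, h2⟩; exact ⟨by omega, h2⟩

lemma W_eq (z : ℕ) : W z = (Vz z)⁻¹ := by
  unfold W Vz
  rw [range_pz, prod_inv_distrib]

lemma W_pos (z : ℕ) : 0 < W z := by rw [W_eq]; exact inv_pos.2 (Vz_pos z)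

lemma lg_eq (n : ℤ) : lg n = fx th n := by
  unfold lg fx th
  by_cases h : n.toNat.Prime
  · have h2 := h.two_le
    have h3 : 1 ≤ n := by omega
    rw [if_pos h, if_pos h3, if_pos h]
    congr 1
    have : ((n.toNat : ℕ) : ℤ) = n := Int.toNat_of_nonneg (by omega)
    exact_mod_cast this.symm
  · rw [if_neg h, if_neg h]
    split_ifs <;> rfl

open Classical in
lemma rough_eq (z : ℕ) (n : ℤ) : lamzI z n = if Rough z n then W z else 0 := by
  unfold lamzI lamz Rough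
  rw [W_eq]
  by_cases h : 1 ≤ n
  · rw [if_pos h]
    have h4 : ((n.toNat : ℕ) : ℤ) = n := Int.toNat_of_nonneg (by omega)
    have h3 : (∀ p ∈ pz z, ¬ p ∣ n.toNat) ↔ (1 ≤ n ∧ ∀ p : ℕ, p.Prime → p ≤ z → ¬ (p : ℤ) ∣ n) := by
      constructor
      · intro h5
        refine ⟨h, fun p hp hpz hd => h5 p (mem_pz.2 ⟨hpz, hp⟩) ?_⟩
        rw [← h4] at hd
        exact_mod_cast hd
      · rintro ⟨_, h5⟩ p hp hd
        rw [mem_pz] at hp
        apply h5 p hp.2 hp.1
        rw [← h4]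
        exact_mod_cast hd
    by_cases h5 : ∀ p ∈ pz z, ¬ p ∣ n.toNat
    · rw [if_pos h5, if_pos (h3.1 h5)]
    · rw [if_neg h5, if_neg (fun h6 => h5 (h3.2 h6))]
  · rw [if_neg h, if_neg (fun h5 => h h5.1)]

open Classical in
lemma prod_rough {r : ℕ} (z : ℕ) (v : Fin r → ℤ) : ∏ j, lamzI z (v j) = if ∀ j, Rough z (v j) then W z ^ r else 0 := by
  by_cases h : ∀ j, Rough z (v j)
  · rw [if_pos h]
    have h1 : ∀ j ∈ (univ : Finset (Fin r)), lamzI z (v j) = W z := fun j _ => by rw [rough_eq, if_pos (h j)]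
    rw [prod_congr rfl h1, prod_const, card_univ, Fintype.card_fin]
  · rw [if_neg h]
    push Not at h
    obtain ⟨j, hj⟩ := h
    exact prod_eq_zero (mem_univ j) (by rw [rough_eq, if_neg hj])

lemma sing_eq (b f : ℕ) (hf : 1 ≤ f) (D : ℕ → Finset ℕ) (K : ℕ) {r : ℕ} (F : Fin r → ℤ[X]) (k : Fin r → ℤ) (z : ℕ) :
    Sing b f D K F k z = Pool.Agent.HP25.RD.SgDF b f D K F k z := by
  classical
  unfold Sing Pool.Agent.HP25.RD.SgDF
  rw [W_eq]
  congr 1
  · congr 1
    congr 2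
    unfold L
    congr 1
    apply filter_congr
    intro m _
    constructor
    · rintro h p hp ⟨j, hj⟩
      exact h p (Nat.prime_of_mem_primeFactors hp) (Nat.dvd_of_mem_primeFactors hp) j hj
    · intro h p hp hd j hj
      exact h p (Nat.mem_primeFactors.2 ⟨hp, hd, by omega⟩) ⟨j, hj⟩
  · apply prod_congr _ fun _ _ => rfl
    ext p
    rw [mem_filter, mem_filter, mem_pz, mem_range]
    constructor
    · rintro ⟨h1, h2, h3⟩; exact ⟨⟨by omega, h2⟩, h3⟩
    · rintro ⟨⟨h1, h2⟩, h3⟩; exact ⟨by omega, h2, h3⟩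

lemma box_mem (b : ℕ) {r : ℕ} (F : Fin r → ℤ[X]) (T K : ℕ) (k : Fin r → ℤ) : k ∈ Box b F T K ↔ k ∈ Pool.Agent.HP25.RD.Box b F T K := by
  unfold Box Pool.Agent.HP25.RD.Box
  rw [Set.mem_ofPred_eq, Fintype.mem_piFinset]
  apply forall_congr'
  intro j
  rw [mem_Icc, abs_le]

open Classical in
/-- the general statement -/
theorem main (b : ℕ) (hb : 2 ≤ b) (r : ℕ) (hr : 1 ≤ r) (F : Fin r → ℤ[X]) (hF : ∀ j, 1 ≤ (F j).natDegree ∧ (F j).coeff 0 = 0)
    (T A U : ℕ) (hT : 1 ≤ T) : ∃ B C : ℕ, ∀ E : ℕ, ∃ K₀ : ℕ, ∀ K : ℕ, K₀ ≤ K → ∀ z : ℕ, K ^ B ≤ z → z ≤ K ^ E →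
    ∀ D : ℕ → Finset ℕ, (∀ i < K, D i ⊆ range b ∧ 2 ≤ (D i).card) → ∀ G : ℕ → ℝ, (∀ m, |G m| ≤ 1) →
    ∃ Bad : Finset (Fin r → ℤ), (Bad.card : ℝ) ≤ (∏ j, (b : ℝ) ^ ((F j).natDegree * K)) / (K : ℝ) ^ U ∧
    ∀ k ∈ Box b F T K, k ∉ Bad →
      |∑ m ∈ S b D K, G m * ∏ j, lg ((F j).eval (m : ℤ) + k j) -
        W z ^ r * ∑ m ∈ (S b D K).filter (fun m : ℕ => ∀ j, Rough z ((F j).eval (m : ℤ) + k j)), G m| ≤ (S b D K).card / (K : ℝ) ^ U ∧
      ((∀ j, ∀ m < b ^ K, 1 ≤ (F j).eval (m : ℤ) + k j) →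
        ∀ f : ℕ, (f = b.factorial ∨ (f = b ∧ ∀ i < K, ∃ a ∈ D i, a + 1 ∈ D i)) →
        |∑ m ∈ S b D K, ∏ j, lg ((F j).eval (m : ℤ) + k j) - (S b D K).card * Sing b f D K F k z| ≤ (S b D K).card / (K : ℝ) ^ U ∧
        ((∀ p : ℕ, p.Prime → ¬ p ∣ f → nu F k p < p) → ((S b D K).card : ℝ) / (K : ℝ) ^ A ≤ (L b f D K F k).card →
          ((S b D K).card : ℝ) / (K : ℝ) ^ C ≤
            ((S b D K).filter (fun m : ℕ => ∀ j, ((F j).eval (m : ℤ) + k j).toNat.Prime)).card)) := by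
  have hF1 : ∀ j, 1 ≤ (F j).natDegree := fun j => (hF j).1
  have hF0 : ∀ j, (F j).coeff 0 = 0 := fun j => (hF j).2
  obtain ⟨d, hd⟩ : ∃ d : ℕ, ∀ j, (F j).natDegree ≤ d :=
    ⟨univ.sup (fun j => (F j).natDegree), fun j => le_sup (f := fun j => (F j).natDegree) (mem_univ j)⟩
  obtain ⟨V, hV⟩ : ∃ V, V = U + A + 8 * (d * r) + 4 := ⟨_, rfl⟩
  obtain ⟨B1, h1⟩ := Pool.Agent.HP25.RD.sub_box b hb r F hF1 hF0 T V hT
  have hg0 := Pool.Agent.TH872.Sq.g0_bounds b hb (1 / 2) (by norm_num) (by norm_num)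
  have hb0 : (0 : ℝ) < b := by exact_mod_cast (by omega : 0 < b)
  have hb1 : 1 / (b : ℝ) ≤ 1 := by
    rw [div_le_one hb0]
    exact_mod_cast (by omega : 1 ≤ b)
  have hg1 := Pool.Agent.HP25.RD.g1_bounds hb (show 0 < 1 / (b : ℝ) by positivity) hb1
  obtain ⟨B2, h2⟩ := Pool.Agent.HP25.RD.asym_box b hb r F hF1 hF0 b.factorial (by
    calc 2 = Nat.factorial 2 := rfl
      _ ≤ _ := Nat.factorial_le hb) _ hg0.1 hg0.2 T V hT
  obtain ⟨B3, h3⟩ := Pool.Agent.HP25.RD.asym_box b hb r F hF1 hF0 b hb _ hg1.1 hg1.2 T V hT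
  refine ⟨B1 + B2 + B3, A + 8 * (d * r) + 2 + 2 * r, fun E => ?_⟩
  obtain ⟨K1, h1⟩ := h1 E
  obtain ⟨K2, h2⟩ := h2 E
  obtain ⟨K3, h3⟩ := h3 E
  obtain ⟨K4, h4⟩ := Pool.Agent.HP25.RD.SgDF_lower b b.factorial r hr F hF1 d hd E A
  obtain ⟨K5, h5⟩ := Pool.Agent.HP25.RD.SgDF_lower b b r hr F hF1 d hd E A
  obtain ⟨K6, h6⟩ := Pool.Agent.HP25.RD.count_lower b hb r F T
  refine ⟨K1 + K2 + K3 + K4 + K5 + K6 + 4, fun K hK z hz1 hz2 D hD G hG => ?_⟩
  have hK4 : (4 : ℝ) ≤ K := by exact_mod_cast (by omega : 4 ≤ K)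
  have hK1 : (1 : ℝ) ≤ K := by linarith
  have hK0 : (0 : ℝ) < K := by linarith
  have hz1r : (K : ℝ) ^ (B1 + B2 + B3) ≤ z := by exact_mod_cast hz1
  have hz2r : (z : ℝ) ≤ (K : ℝ) ^ E := by exact_mod_cast hz2
  have hzle : ∀ B ≤ B1 + B2 + B3, (K : ℝ) ^ B ≤ z := fun B hB => (pow_le_pow_right₀ hK1 hB).trans hz1r
  have hzone : 1 ≤ z := le_trans (Nat.one_le_pow _ _ (by omega)) hz1
  have hS0 : (0 : ℝ) < (S b D K).card := Pool.Agent.TH872.Sq.SD_card_pos b hb D K hD
  obtain ⟨sc, hsc⟩ : ∃ sc : ℝ, sc = (S b D K).card := ⟨_, rfl⟩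
  have hsc' : ((SD b D K).card : ℝ) = sc := hsc.symm
  obtain ⟨Pr, hPr⟩ : ∃ Pr : ℝ, Pr = ∏ j, (b : ℝ) ^ ((F j).natDegree * K) := ⟨_, rfl⟩
  have hPr0 : 0 ≤ Pr := by rw [hPr]; positivity
  have hSD : ∀ f : ℕ → ℝ, ∑ m ∈ SD b D K, f m = ∑ m ∈ S b D K, f m := fun f => rfl
  have hd8 := dig_wD b hb D K hD
  -- the three exceptional sets
  obtain ⟨Q1, hQ1⟩ : ∃ Q1 : (Fin r → ℤ) → Prop, ∀ c, Q1 c ↔ 1 / (K : ℝ) ^ V < |1 / ((SD b D K).card : ℝ) * ∑ n ∈ SD b D K,
      G n * (∏ j, fx th ((F j).eval (n : ℤ) + c j) - ∏ j, lamzI z ((F j).eval (n : ℤ) + c j))| := ⟨_, fun _ => Iff.rfl⟩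
  obtain ⟨Q2, hQ2⟩ : ∃ Q2 : ℕ → (Fin r → ℤ) → Prop, ∀ f c, Q2 f c ↔ (∀ j, ∀ n < b ^ K, 1 ≤ (F j).eval (n : ℤ) + c j) ∧
      1 / (K : ℝ) ^ V < |1 / ((SD b D K).card : ℝ) * ∑ n ∈ SD b D K, ∏ j, fx th ((F j).eval (n : ℤ) + c j) -
        Pool.Agent.HP25.RD.SgDF b f D K F c z| := ⟨_, fun _ _ => Iff.rfl⟩
  have e1 := h1 K (by omega) z (hzle _ (by omega)) hz2r D hD G hG Q1 (fun c hc => (hQ1 c).1 hc)
  have e2 := h2 K (by omega) z (hzle _ (by omega)) hz2r D hD (Pool.Agent.HP25.RD.equiP_fac hb (by norm_num) hd8 0 K) (Q2 b.factorial)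
    (fun c hc => (hQ2 _ c).1 hc)
  have e3 : (∀ i < K, ∃ a ∈ D i, a + 1 ∈ D i) →
      (((Pool.Agent.HP25.RD.Box b F T K).filter (Q2 b)).card : ℝ) ≤ (∏ j, (b : ℝ) ^ ((F j).natDegree * K)) / (K : ℝ) ^ V := by
    intro hcons
    -- the law with consecutive digits
    have hdig : Pool.Agent.TH872.Sq.Dig b (1 / (b : ℝ)) (wD D K) := by
      refine ⟨hd8.nonneg, hd8.sum, fun i a => (hd8.le i a).trans ?_⟩
      have : 1 / (b : ℝ) ≤ 1 / 2 := one_div_le_one_div_of_le (by norm_num) (by exact_mod_cast hb)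
      linarith
    have hcc : Pool.Agent.HP25.RD.Cons b (1 / (b : ℝ)) (wD D K) := by
      intro i
      by_cases hi : i < K
      · obtain ⟨a, ha, ha1⟩ := hcons i hi
        obtain ⟨g1, g2⟩ := hD i hi
        have hcard : ((D i).card : ℝ) ≤ b := by
          have := card_le_card g1
          rw [card_range] at this
          exact_mod_cast this
        have hcard0 : (0 : ℝ) < (D i).card := by exact_mod_cast (by omega : 0 < (D i).card)
        have h7 : 1 / (b : ℝ) ≤ 1 / ((D i).card : ℝ) := one_div_le_one_div_of_le hcard0 hcard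
        refine ⟨a, mem_range.1 (g1 ha1), ?_, ?_⟩
        · unfold wD
          rw [if_pos hi, if_pos ha]
          exact h7
        · unfold wD
          rw [if_pos hi, if_pos ha1]
          exact h7
      · have : 1 / (b : ℝ) ≤ 1 / 2 := one_div_le_one_div_of_le (by norm_num) (by exact_mod_cast hb)
        refine ⟨0, by omega, ?_, ?_⟩
        · unfold wD
          rw [if_neg hi, if_pos (by norm_num)]
          exact this
        · unfold wD
          rw [if_neg hi, if_pos (by norm_num)]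
          exact this
    exact h3 K (by omega) z (hzle _ (by omega)) hz2r D hD
      (Pool.Agent.HP25.RD.equiP_base hb (by positivity) hdig hcc 0 K) (Q2 b) (fun c hc => (hQ2 _ c).1 hc)
  rw [← hPr] at e1 e2 e3
  -- comparison of the two formulations
  have hKV : 1 / (K : ℝ) ^ V ≤ 1 / (K : ℝ) ^ U := by
    apply one_div_le_one_div_of_le (by positivity)
    exact pow_le_pow_right₀ hK1 (by omega)
  have hlast : ∀ f : ℕ, 2 ≤ f → (f = b.factorial ∨ f = b) → ∀ c ∈ Pool.Agent.HP25.RD.Box b F T K, ¬ Q2 f c →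
      (∀ j, ∀ m < b ^ K, 1 ≤ (F j).eval (m : ℤ) + c j) →
        |∑ m ∈ S b D K, ∏ j, lg ((F j).eval (m : ℤ) + c j) - (S b D K).card * Sing b f D K F c z| ≤ (S b D K).card / (K : ℝ) ^ U ∧
        ((∀ p : ℕ, p.Prime → ¬ p ∣ f → nu F c p < p) → ((S b D K).card : ℝ) / (K : ℝ) ^ A ≤ (L b f D K F c).card →
          ((S b D K).card : ℝ) / (K : ℝ) ^ (A + 8 * (d * r) + 2 + 2 * r) ≤
            ((S b D K).filter (fun m : ℕ => ∀ j, ((F j).eval (m : ℤ) + c j).toNat.Prime)).card) := by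
    intro f hf2 hf c hc hQ hpos
    rw [hQ2] at hQ
    have h7 : |1 / ((SD b D K).card : ℝ) * ∑ n ∈ SD b D K, ∏ j, fx th ((F j).eval (n : ℤ) + c j) -
        Pool.Agent.HP25.RD.SgDF b f D K F c z| ≤ 1 / (K : ℝ) ^ V := by
      by_contra hcon
      exact hQ ⟨hpos, not_le.1 hcon⟩
    rw [← sing_eq b f (by omega), hsc'] at h7
    have hlg : ∑ m ∈ SD b D K, ∏ j, fx th ((F j).eval (m : ℤ) + c j) = ∑ m ∈ S b D K, ∏ j, lg ((F j).eval (m : ℤ) + c j) := by
      rw [hSD]
      apply sum_congr rfl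
      intro m _
      apply prod_congr rfl
      intro j _
      rw [lg_eq]
    rw [hlg] at h7
    rw [← hsc] at hS0 ⊢
    constructor
    · have h8 : ∑ m ∈ S b D K, ∏ j, lg ((F j).eval (m : ℤ) + c j) - sc * Sing b f D K F c z =
          sc * (1 / sc * ∑ m ∈ S b D K, ∏ j, lg ((F j).eval (m : ℤ) + c j) - Sing b f D K F c z) := by
        field_simp
      rw [h8, abs_mul, abs_of_pos hS0, div_eq_mul_one_div sc]
      exact mul_le_mul_of_nonneg_left (h7.trans hKV) hS0.le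
    · intro hnu hloc
      have hloc' : (((SD b D K).card : ℝ)) / (K : ℝ) ^ A ≤
          (((SD b D K).filter (fun n : ℕ => ∀ p ∈ f.primeFactors, ¬ ∃ j, (p : ℤ) ∣ (F j).eval (n : ℤ) + c j)).card : ℝ) := by
        rw [hsc']
        refine hloc.trans ?_
        have : L b f D K F c ⊆ (SD b D K).filter (fun n : ℕ => ∀ p ∈ f.primeFactors, ¬ ∃ j, (p : ℤ) ∣ (F j).eval (n : ℤ) + c j) := by
          intro m hm
          unfold L at hm
          rw [mem_filter] at hm ⊢
          refine ⟨hm.1, ?_⟩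
          rintro p hp ⟨j, hj⟩
          exact hm.2 p (Nat.prime_of_mem_primeFactors hp) (Nat.dvd_of_mem_primeFactors hp) j hj
        exact_mod_cast card_le_card this
      have h8 : 4 / (K : ℝ) ^ (A + 8 * (d * r) + 2) ≤ Sing b f D K F c z := by
        rw [sing_eq b f (by omega)]
        rcases hf with hf | hf
        · subst hf
          exact h4 K (by omega) z hzone hz2r D (by rw [hsc']; exact hS0) c hnu hloc'
        · subst hf
          exact h5 K (by omega) z hzone hz2r D (by rw [hsc']; exact hS0) c hnu hloc'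
      have h9 : 1 / (K : ℝ) ^ V ≤ 1 / (K : ℝ) ^ (A + 8 * (d * r) + 2) := by
        apply one_div_le_one_div_of_le (by positivity)
        exact pow_le_pow_right₀ hK1 (by omega)
      have h10 : 1 / (K : ℝ) ^ (A + 8 * (d * r) + 2) ≤ 1 / sc * ∑ m ∈ S b D K, ∏ j, lg ((F j).eval (m : ℤ) + c j) := by
        have h11 := (abs_le.1 h7).1
        have h12 : 0 < 1 / (K : ℝ) ^ (A + 8 * (d * r) + 2) := by positivity
        have h13 : 4 / (K : ℝ) ^ (A + 8 * (d * r) + 2) = 4 * (1 / (K : ℝ) ^ (A + 8 * (d * r) + 2)) := by ring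
        rw [h13] at h8
        linarith
      have h11 := h6 K (by omega) D c hc (1 / (K : ℝ) ^ (A + 8 * (d * r) + 2)) (by rw [hsc']; exact hS0) (by
        rw [hsc', hlg]
        exact h10)
      rw [hsc'] at h11
      have h12 : (0 : ℝ) < (K : ℝ) ^ (2 * r) := by positivity
      rw [pow_add (K : ℝ) (A + 8 * (d * r) + 2) (2 * r), ← div_div, div_le_iff₀ h12]
      refine le_trans (le_of_eq ?_) h11
      ring
  refine ⟨(Pool.Agent.HP25.RD.Box b F T K).filter Q1 ∪ ((Pool.Agent.HP25.RD.Box b F T K).filter (Q2 b.factorial) ∪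
    (if (∀ i < K, ∃ a ∈ D i, a + 1 ∈ D i) then (Pool.Agent.HP25.RD.Box b F T K).filter (Q2 b) else ∅)), ?_, ?_⟩
  · have h7 : (((if (∀ i < K, ∃ a ∈ D i, a + 1 ∈ D i) then (Pool.Agent.HP25.RD.Box b F T K).filter (Q2 b) else ∅).card : ℕ) : ℝ) ≤
        Pr / (K : ℝ) ^ V := by
      split_ifs with h
      · exact e3 h
      · rw [card_empty]
        push_cast
        positivity
    have h8 := card_union_le ((Pool.Agent.HP25.RD.Box b F T K).filter Q1) (((Pool.Agent.HP25.RD.Box b F T K).filter (Q2 b.factorial) ∪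
      (if (∀ i < K, ∃ a ∈ D i, a + 1 ∈ D i) then (Pool.Agent.HP25.RD.Box b F T K).filter (Q2 b) else ∅)))
    have h9 := card_union_le ((Pool.Agent.HP25.RD.Box b F T K).filter (Q2 b.factorial))
      (if (∀ i < K, ∃ a ∈ D i, a + 1 ∈ D i) then (Pool.Agent.HP25.RD.Box b F T K).filter (Q2 b) else ∅)
    have h10 := (Nat.cast_le (α := ℝ)).2 (h8.trans (Nat.add_le_add_left h9 _))
    push_cast at h10
    rw [← hPr]
    have h11 : 3 * (Pr / (K : ℝ) ^ V) ≤ Pr / (K : ℝ) ^ U := by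
      have h12 : Pr / (K : ℝ) ^ V ≤ Pr / (K : ℝ) ^ (U + 1) := by
        apply div_le_div_of_nonneg_left hPr0 (by positivity)
        exact pow_le_pow_right₀ hK1 (by omega)
      have h13 : Pr / (K : ℝ) ^ (U + 1) = Pr / (K : ℝ) ^ U / K := by rw [pow_succ, div_div]
      have h14 : 0 ≤ Pr / (K : ℝ) ^ U := by positivity
      have h15 : Pr / (K : ℝ) ^ U / K ≤ Pr / (K : ℝ) ^ U / 4 := div_le_div_of_nonneg_left h14 (by norm_num) hK4
      linarith
    linarith
  · intro k hk hkB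
    rw [box_mem] at hk
    rw [mem_union, mem_union, not_or, not_or] at hkB
    obtain ⟨b1, b2, b3⟩ := hkB
    have c1 : ¬ Q1 k := fun h => b1 (mem_filter.2 ⟨hk, h⟩)
    have c2 : ¬ Q2 b.factorial k := fun h => b2 (mem_filter.2 ⟨hk, h⟩)
    have c3 : (∀ i < K, ∃ a ∈ D i, a + 1 ∈ D i) → ¬ Q2 b k := by
      intro h7 h8
      rw [if_pos h7] at b3
      exact b3 (mem_filter.2 ⟨hk, h8⟩)
    constructor
    · rw [hQ1, not_lt, hsc'] at c1
      have h7 : ∑ m ∈ S b D K, G m * ∏ j, lg ((F j).eval (m : ℤ) + k j) -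
          W z ^ r * ∑ m ∈ (S b D K).filter (fun m : ℕ => ∀ j, Rough z ((F j).eval (m : ℤ) + k j)), G m =
          sc * (1 / sc * ∑ n ∈ SD b D K, G n * (∏ j, fx th ((F j).eval (n : ℤ) + k j) - ∏ j, lamzI z ((F j).eval (n : ℤ) + k j))) := by
        have hsc0 : sc ≠ 0 := by rw [hsc]; exact hS0.ne'
        rw [← mul_assoc, mul_one_div_cancel hsc0, one_mul, sum_filter, mul_sum, ← sum_sub_distrib, hSD]
        apply sum_congr rfl
        intro m _
        rw [prod_rough, mul_sub]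
        congr 1
        · congr 1
          apply prod_congr rfl
          intro j _
          rw [lg_eq]
        · split_ifs
          · ring
          · ring
      rw [h7, ← hsc, abs_mul, abs_of_pos (by rw [hsc]; exact hS0), div_eq_mul_one_div sc]
      exact mul_le_mul_of_nonneg_left (c1.trans hKV) (by rw [hsc]; exact hS0.le)
    · intro hpos f hf
      rcases hf with hf | ⟨hf, hcons⟩
      · have hf2 : 2 ≤ f := by
          rw [hf]
          calc 2 = Nat.factorial 2 := rfl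
            _ ≤ _ := Nat.factorial_le hb
        exact hlast f hf2 (Or.inl hf) k hk (by rw [hf]; exact c2) hpos
      · exact hlast f (by omega) (Or.inr hf) k hk (by rw [hf]; exact c3 hcons) hpos

/-! ### The ternary Cantor integers -/

/-- the digits `0` and `1` -/
def D01 : ℕ → Finset ℕ := fun _ => {0, 1}

lemma D01_ok (K : ℕ) : ∀ i < K, D01 i ⊆ range 3 ∧ 2 ≤ (D01 i).card := by
  intro i _
  unfold D01
  refine ⟨by decide, by decide⟩

lemma card_S (K : ℕ) : ((S 3 D01 K).card : ℝ) = 2 ^ K := by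
  have h0 : 0 ∈ SD 3 D01 K := by
    unfold SD
    rw [mem_filter, mem_range]
    refine ⟨by positivity, fun i _ => ?_⟩
    rw [Nat.zero_div, Nat.zero_mod]
    unfold D01
    simp
  have h1 := P_wD 3 (by norm_num) D01 K (D01_ok K) 0 (mem_range.2 (by positivity))
  rw [if_pos h0] at h1
  have h2 : Pool.Agent.TH872.Sq.P 3 (wD D01 K) 0 K 0 = (1 / 2) ^ K := by
    unfold Pool.Agent.TH872.Sq.P
    have h3 : ∀ j ∈ range K, wD D01 K (0 + j) (0 / 3 ^ j % 3) = 1 / 2 := by
      intro j hj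
      rw [mem_range] at hj
      unfold wD
      rw [zero_add, if_pos hj, Nat.zero_div, Nat.zero_mod]
      have : (0 : ℕ) ∈ D01 j := by unfold D01; simp
      rw [if_pos this]
      have h3 : (D01 j).card = 2 := by unfold D01; decide
      rw [h3]
      norm_num
    rw [prod_congr rfl h3, prod_const, card_range]
  rw [h2] at h1
  have h3 : (SD 3 D01 K) = S 3 D01 K := rfl
  rw [h3, div_pow, one_pow] at h1
  have h4 := congrArg (fun x : ℝ => 1 / x) h1
  simp only [one_div_one_div] at h4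
  exact h4.symm

lemma mem_S {K m : ℕ} (h : m ∈ S 3 D01 K) : m < 3 ^ K ∧ ∀ i < K, m / 3 ^ i % 3 = 0 ∨ m / 3 ^ i % 3 = 1 := by
  unfold S at h
  rw [mem_filter, mem_range] at h
  refine ⟨h.1, fun i hi => ?_⟩
  have := h.2 i hi
  unfold D01 at this
  simpa using this

lemma digits_S {K m : ℕ} (h : m ∈ S 3 D01 K) : 2 ∉ Nat.digits 3 m := by
  obtain ⟨h1, h2⟩ := mem_S h
  intro hd
  obtain ⟨i, hi, h3⟩ := List.mem_iff_getElem.1 hd
  have h4 : (Nat.digits 3 m).getD i 0 = m / 3 ^ i % 3 := Nat.getD_digits m i (by norm_num)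
  rw [List.getD_eq_getElem _ _ hi, h3] at h4
  have hK : i < K := by
    by_contra hcon
    have h5 : m / 3 ^ i = 0 := Nat.div_eq_of_lt (h1.trans_le (Nat.pow_le_pow_right (by norm_num) (not_lt.1 hcon)))
    rw [h5] at h4
    omega
  have := h2 i hK
  omega

/-- the other last digit -/
def tog (m : ℕ) : ℕ := if m % 3 = 0 then m + 1 else m - 1

lemma tog_mem {K m : ℕ} (hK : 1 ≤ K) (h : m ∈ S 3 D01 K) : tog m ∈ S 3 D01 K ∧ tog (tog m) = m ∧
    ((tog m : ℤ) = m + 1 ∨ (tog m : ℤ) = m - 1) := by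
  obtain ⟨h1, h2⟩ := mem_S h
  have h0 := h2 0 (by omega)
  rw [pow_zero, Nat.div_one] at h0
  obtain ⟨K', rfl⟩ : ∃ K', K = K' + 1 := ⟨K - 1, by omega⟩
  have hlt : tog m < 3 ^ (K' + 1) ∧ tog m / 3 = m / 3 ∧ (tog m % 3 = 0 ∨ tog m % 3 = 1) ∧ tog (tog m) = m ∧
      ((tog m : ℤ) = m + 1 ∨ (tog m : ℤ) = m - 1) := by
    have h3 : 3 ^ (K' + 1) = 3 * 3 ^ K' := by rw [pow_succ]; ring
    unfold tog
    rcases h0 with h0 | h0
    · rw [if_pos h0]
      have : ¬ (m + 1) % 3 = 0 := by omega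
      rw [if_neg this]
      refine ⟨by omega, by omega, by omega, by omega, by omega⟩
    · rw [if_neg (by omega)]
      have : (m - 1) % 3 = 0 := by omega
      rw [if_pos this]
      refine ⟨by omega, by omega, by omega, by omega, by omega⟩
  obtain ⟨c1, c2, c3, c4, c5⟩ := hlt
  refine ⟨?_, c4, c5⟩
  unfold S
  rw [mem_filter, mem_range]
  refine ⟨c1, fun i hi => ?_⟩
  unfold D01
  rw [mem_insert, mem_singleton]
  rcases Nat.eq_zero_or_pos i with hi0 | hi0
  · rw [hi0, pow_zero, Nat.div_one]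
    exact c3
  · obtain ⟨i', rfl⟩ : ∃ i', i = i' + 1 := ⟨i - 1, by omega⟩
    have h4 := h2 (i' + 1) hi
    rw [pow_succ', ← Nat.div_div_eq_div_mul, c2, Nat.div_div_eq_div_mul, ← pow_succ']
    exact h4

/-- **The integers `m³ + k`, where `m` has no digit `2` in base three.** -/
theorem ternary (U : ℕ) : ∃ C K₀ : ℕ, ∀ K : ℕ, K₀ ≤ K → ∃ Bad : Finset ℕ, (Bad.card : ℝ) ≤ 27 ^ K / (K : ℝ) ^ U ∧
    ∀ k ∈ Icc 1 (27 ^ K), k ∉ Bad →
      (2 : ℝ) ^ K / (K : ℝ) ^ C ≤ ((range (3 ^ K)).filter (fun m => 2 ∉ Nat.digits 3 m ∧ (m ^ 3 + k).Prime)).card := by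
  classical
  obtain ⟨F, hF⟩ : ∃ F : Fin 1 → ℤ[X], F = fun _ => Polynomial.X ^ 3 := ⟨_, rfl⟩
  have hdeg : ∀ j, (F j).natDegree = 3 := fun j => by rw [hF, Polynomial.natDegree_X_pow]
  have hev : ∀ (j : Fin 1) (x : ℤ), (F j).eval x = x ^ 3 := fun j x => by rw [hF, Polynomial.eval_pow, Polynomial.eval_X]
  obtain ⟨B, C, h⟩ := main 3 (by norm_num) 1 le_rfl F (fun j => ⟨by rw [hdeg]; norm_num, by
    rw [hF, Polynomial.coeff_X_pow]; norm_num⟩) 1 1 U le_rfl
  obtain ⟨K₀, h⟩ := h B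
  refine ⟨C, K₀ + 2, fun K hK => ?_⟩
  obtain ⟨Bad, hB1, hB2⟩ := h K (by omega) (K ^ B) le_rfl le_rfl D01 (D01_ok K) (fun _ => 1) (fun _ => by norm_num)
  refine ⟨Bad.image (fun c => (c 0).toNat), ?_, fun k hk hkB => ?_⟩
  · refine le_trans (Nat.cast_le.2 card_image_le) (hB1.trans (le_of_eq ?_))
    congr 1
    rw [Fin.prod_univ_one, hdeg, pow_mul]
    norm_num
  · rw [mem_Icc] at hk
    obtain ⟨c, hc⟩ : ∃ c : Fin 1 → ℤ, c = fun _ => (k : ℤ) := ⟨_, rfl⟩
    have hcj : ∀ j, c j = k := fun j => by rw [hc]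
    have hcB : c ∉ Bad := by
      intro h1
      apply hkB
      rw [mem_image]
      exact ⟨c, h1, by rw [hcj]; simp⟩
    have hbox : c ∈ Box 3 F 1 K := by
      unfold Box
      rw [Set.mem_ofPred_eq]
      intro j
      rw [hcj, hdeg, one_mul, abs_of_nonneg (Int.natCast_nonneg _)]
      have h1 : (27 : ℕ) ^ K = 3 ^ (3 * K) := by rw [pow_mul]; norm_num
      rw [h1] at hk
      exact_mod_cast hk.2
    obtain ⟨-, h2⟩ := hB2 c hbox hcB
    have hpos : ∀ j, ∀ m < 3 ^ K, 1 ≤ (F j).eval ((m : ℕ) : ℤ) + c j := by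
      intro j m _
      rw [hev, hcj]
      have h1 : (0 : ℤ) ≤ (m : ℤ) ^ 3 := by positivity
      have h2 : (1 : ℤ) ≤ k := by exact_mod_cast hk.1
      linarith
    obtain ⟨-, h3⟩ := h2 hpos 3 (Or.inr ⟨rfl, fun i _ => ⟨0, by unfold D01; simp, by unfold D01; simp⟩⟩)
    have h4 := h3 (by
      intro p hp _
      unfold nu
      have h5 : (range p).filter (fun a : ℕ => ∃ j, (p : ℤ) ∣ (F j).eval (a : ℤ) + c j) ⊂ range p := by
        rw [filter_ssubset]
        have h2 := hp.two_le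
        by_cases h6 : (p : ℤ) ∣ k
        · refine ⟨1, mem_range.2 (by omega), ?_⟩
          rintro ⟨j, hj⟩
          rw [hev, hcj, Nat.cast_one, one_pow] at hj
          have h7 := dvd_sub hj h6
          rw [add_sub_cancel_right] at h7
          have := Int.le_of_dvd (by norm_num) h7
          omega
        · refine ⟨0, mem_range.2 (by omega), ?_⟩
          rintro ⟨j, hj⟩
          rw [hev, hcj] at hj
          apply h6
          simpa using hj
      have := card_lt_card h5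
      rwa [card_range] at this) (by
      -- at least one half of the arguments
      have h5 : (S 3 D01 K) \ (L 3 3 D01 K F c) ⊆ ((L 3 3 D01 K F c)).image tog := by
        intro m hm
        rw [mem_sdiff] at hm
        obtain ⟨hm1, hm2⟩ := hm
        obtain ⟨t1, t2, t3⟩ := tog_mem (by omega) hm1
        rw [mem_image]
        refine ⟨tog m, ?_, t2⟩
        unfold L at hm2 ⊢
        rw [mem_filter] at hm2 ⊢
        refine ⟨t1, ?_⟩
        push Not at hm2
        obtain ⟨p, hp, hp3, j, hj⟩ := hm2 hm1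
        have hp3' : p = 3 := (Nat.prime_dvd_prime_iff_eq hp (by norm_num)).1 hp3
        rw [hev, hcj, hp3'] at hj
        intro p' hp' hp3'' j' hj'
        have hp4 : p' = 3 := (Nat.prime_dvd_prime_iff_eq hp' (by norm_num)).1 hp3''
        rw [hev, hcj, hp4] at hj'
        have h6 := dvd_sub hj' hj
        rcases t3 with t3 | t3
        · rw [t3] at h6
          have e1 : (((m : ℤ) + 1) ^ 3 + k - ((m : ℤ) ^ 3 + k)) = 3 * ((m : ℤ) ^ 2 + m) + 1 := by ring
          rw [e1] at h6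
          push_cast at h6
          omega
        · rw [t3] at h6
          have e1 : (((m : ℤ) - 1) ^ 3 + k - ((m : ℤ) ^ 3 + k)) = 3 * (-(m : ℤ) ^ 2 + m) - 1 := by ring
          rw [e1] at h6
          push_cast at h6
          omega
      have h6 := (card_le_card h5).trans card_image_le
      have h7 : (L 3 3 D01 K F c) ⊆ S 3 D01 K := by unfold L; exact filter_subset _ _
      have h8 := card_sdiff_add_card_eq_card h7
      have h9 : (S 3 D01 K).card ≤ 2 * (L 3 3 D01 K F c).card := by omega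
      have h10 : ((S 3 D01 K).card : ℝ) ≤ 2 * (L 3 3 D01 K F c).card := by exact_mod_cast h9
      rw [pow_one, div_le_iff₀ (by exact_mod_cast (by omega : 0 < K))]
      have h11 : (2 : ℝ) ≤ K := by exact_mod_cast (by omega : 2 ≤ K)
      have h12 : (0 : ℝ) ≤ (L 3 3 D01 K F c).card := Nat.cast_nonneg _
      nlinarith)
    rw [card_S] at h4
    refine h4.trans ?_
    have h5 : (S 3 D01 K).filter (fun m : ℕ => ∀ j, ((F j).eval (m : ℤ) + c j).toNat.Prime) ⊆
        (range (3 ^ K)).filter (fun m => 2 ∉ Nat.digits 3 m ∧ (m ^ 3 + k).Prime) := by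
      intro m hm
      rw [mem_filter] at hm ⊢
      refine ⟨mem_range.2 (mem_S hm.1).1, digits_S hm.1, ?_⟩
      have h6 := hm.2 0
      rw [hev, hcj] at h6
      have h7 : ((m : ℤ) ^ 3 + k).toNat = m ^ 3 + k := by
        have : ((m : ℤ) ^ 3 + k) = ((m ^ 3 + k : ℕ) : ℤ) := by push_cast; ring
        rw [this, Int.toNat_natCast]
      rwa [h7] at h6
    exact_mod_cast card_le_card h5

open Classical in
/-- **Primes among the values `F j (m) + k j` (for instance `m³ + k`) at the integers `m` with restricted digits, for almost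
all vectors `k`.** Arbitrary bounded coefficients `G m` (for instance arbitrary subsets of `S b D K`); the asymptotic formula;
the lower bound for the number of the `m` with prime values. Here `f = b!` is allowed always, and `f = b` if every set `D i`
contains two consecutive digits. The theorem `ternary` above is a special case: `b = 3`, `D i = {0, 1}`, `m³ + k`. -/
theorem result (b : ℕ) (hb : 2 ≤ b) (r : ℕ) (hr : 1 ≤ r) (F : Fin r → ℤ[X]) (hF : ∀ j, 1 ≤ (F j).natDegree ∧ (F j).coeff 0 = 0)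
    (T A U : ℕ) (hT : 1 ≤ T) : ∃ B C : ℕ, ∀ E : ℕ, ∃ K₀ : ℕ, ∀ K : ℕ, K₀ ≤ K → ∀ z : ℕ, K ^ B ≤ z → z ≤ K ^ E →
    ∀ D : ℕ → Finset ℕ, (∀ i < K, D i ⊆ range b ∧ 2 ≤ (D i).card) → ∀ G : ℕ → ℝ, (∀ m, |G m| ≤ 1) →
    ∃ Bad : Finset (Fin r → ℤ), (Bad.card : ℝ) ≤ (∏ j, (b : ℝ) ^ ((F j).natDegree * K)) / (K : ℝ) ^ U ∧
    ∀ k ∈ Box b F T K, k ∉ Bad →
      |∑ m ∈ S b D K, G m * ∏ j, lg ((F j).eval (m : ℤ) + k j) -
        W z ^ r * ∑ m ∈ (S b D K).filter (fun m : ℕ => ∀ j, Rough z ((F j).eval (m : ℤ) + k j)), G m| ≤ (S b D K).card / (K : ℝ) ^ U ∧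
      ((∀ j, ∀ m < b ^ K, 1 ≤ (F j).eval (m : ℤ) + k j) →
        ∀ f : ℕ, (f = b.factorial ∨ (f = b ∧ ∀ i < K, ∃ a ∈ D i, a + 1 ∈ D i)) →
        |∑ m ∈ S b D K, ∏ j, lg ((F j).eval (m : ℤ) + k j) - (S b D K).card * Sing b f D K F k z| ≤ (S b D K).card / (K : ℝ) ^ U ∧
        ((∀ p : ℕ, p.Prime → ¬ p ∣ f → nu F k p < p) → ((S b D K).card : ℝ) / (K : ℝ) ^ A ≤ (L b f D K F k).card →
          ((S b D K).card : ℝ) / (K : ℝ) ^ C ≤
            ((S b D K).filter (fun m : ℕ => ∀ j, ((F j).eval (m : ℤ) + k j).toNat.Prime)).card)) :=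
  main b hb r hr F hF T A U hT

end Pool.Agent.Results.MP_4d57ea_nt.RestrictedDigits
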